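import Mathlib

/-!
Two coefficient version of the second power sum identity (G2 S2, row 452, (W) and (P)).

`V` is a power series in `q` whose coefficients are polynomials in `d = X`.  `Prof e m b V` says
that the coefficient of `q^n` is divisible by `d^b` for `n < e`, by `d^(b-1)` for `n < m` and by
`d^(b-2)` for `n = m` (written without subtraction).  Here `e ≤ m ≤ 2 e`.
-/

open Polynomial

namespace Pool.Agent.W_448tc

/-- order profile -/
structure Prof (e m b : ℕ) (V : PowerSeries ℤ[X]) : Prop where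
  lo : ∀ n, n < e → (X : ℤ[X]) ^ b ∣ PowerSeries.coeff n V
  mid : ∀ n, n < m → (X : ℤ[X]) ^ b ∣ X * PowerSeries.coeff n V
  top : (X : ℤ[X]) ^ b ∣ X ^ 2 * PowerSeries.coeff m V

/-- leading coefficient of the `q^0` part -/
noncomputable def eps (b : ℕ) (V : PowerSeries ℤ[X]) : ℤ := (PowerSeries.coeff 0 V).coeff b

/-- coefficient of `q^e d^(b-1)` -/
noncomputable def al (e b : ℕ) (V : PowerSeries ℤ[X]) : ℤ :=
  (X * PowerSeries.coeff e V : ℤ[X]).coeff b

/-- coefficient of `q^m d^(b-2)` -/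
noncomputable def be (m b : ℕ) (V : PowerSeries ℤ[X]) : ℤ :=
  (X ^ 2 * PowerSeries.coeff m V : ℤ[X]).coeff b

theorem coeff_mul_of_dvd {b b' : ℕ} {p p' : ℤ[X]} (h : X ^ b ∣ p) (h' : X ^ b' ∣ p') :
    (p * p').coeff (b + b') = p.coeff b * p'.coeff b' := by
  obtain ⟨r, rfl⟩ := h
  obtain ⟨r', rfl⟩ := h'
  have e1 : X ^ b * r * (X ^ b' * r') = X ^ (b + b') * (r * r') := by rw [pow_add]; ring
  have h2 : ∀ (n : ℕ) (s : ℤ[X]), (X ^ n * s).coeff n = s.coeff 0 := by
    intro n s
    have := coeff_X_pow_mul s n 0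
    rwa [zero_add] at this
  rw [e1, h2, h2, h2, mul_coeff_zero]

theorem coeff_eq_zero_of_dvd {b : ℕ} {p : ℤ[X]} (h : X ^ (b + 1) ∣ p) : p.coeff b = 0 := by
  rw [X_pow_dvd_iff] at h
  exact h b (Nat.lt_succ_self b)

theorem Prof.mul {e m b b' : ℕ} (hem : e ≤ m) (hm : m ≤ 2 * e) {V V' : PowerSeries ℤ[X]}
    (h : Prof e m b V) (h' : Prof e m b' V') (he : 1 ≤ e) : Prof e m (b + b') (V * V') := by
  refine ⟨?_, ?_, ?_⟩
  · intro n hn
    rw [PowerSeries.coeff_mul]
    refine Finset.dvd_sum ?_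
    rintro ⟨i, j⟩ hij
    rw [Finset.HasAntidiagonal.mem_antidiagonal] at hij
    simp only at hij ⊢
    rw [pow_add]
    exact mul_dvd_mul (h.lo i (by omega)) (h'.lo j (by omega))
  · intro n hn
    rw [PowerSeries.coeff_mul, Finset.mul_sum]
    refine Finset.dvd_sum ?_
    rintro ⟨i, j⟩ hij
    rw [Finset.HasAntidiagonal.mem_antidiagonal] at hij
    simp only at hij ⊢
    rw [pow_add]
    by_cases hi : i < e
    · rw [mul_left_comm]
      exact mul_dvd_mul (h.lo i hi) (h'.mid j (by omega))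
    · rw [← mul_assoc]
      exact mul_dvd_mul (h.mid i (by omega)) (h'.lo j (by omega))
  · rw [PowerSeries.coeff_mul, Finset.mul_sum]
    refine Finset.dvd_sum ?_
    rintro ⟨i, j⟩ hij
    rw [Finset.HasAntidiagonal.mem_antidiagonal] at hij
    simp only at hij ⊢
    rw [pow_add]
    by_cases hi0 : i = 0
    · have hj : j = m := by omega
      subst hi0
      subst hj
      rw [mul_left_comm]
      exact mul_dvd_mul (h.lo 0 (by omega)) h'.top
    · by_cases hj0 : j = 0
      · have hi : i = m := by omega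
        subst hj0
        subst hi
        rw [← mul_assoc]
        exact mul_dvd_mul h.top (h'.lo 0 (by omega))
      · have e1 : X ^ 2 * (PowerSeries.coeff i V * PowerSeries.coeff j V') =
            (X * PowerSeries.coeff i V) * (X * PowerSeries.coeff j V') := by ring
        rw [e1]
        exact mul_dvd_mul (h.mid i (by omega)) (h'.mid j (by omega))

theorem eps_mul {e m b b' : ℕ} {V V' : PowerSeries ℤ[X]}
    (h : Prof e m b V) (h' : Prof e m b' V') (he : 1 ≤ e) :
    eps (b + b') (V * V') = eps b V * eps b' V' := by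
  unfold eps
  rw [PowerSeries.coeff_mul, Finset.Nat.antidiagonal_zero, Finset.sum_singleton]
  exact coeff_mul_of_dvd (h.lo 0 (by omega)) (h'.lo 0 (by omega))

theorem al_mul {e m b b' : ℕ} (hem : e < m) {V V' : PowerSeries ℤ[X]}
    (h : Prof e m b V) (h' : Prof e m b' V') (he : 1 ≤ e) :
    al e (b + b') (V * V') = al e b V * eps b' V' + eps b V * al e b' V' := by
  unfold al eps
  rw [PowerSeries.coeff_mul, Finset.mul_sum, finsetSum_coeff]
  have hne : ((e, 0) : ℕ × ℕ) ≠ (0, e) := by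
    intro h1
    have := congrArg Prod.fst h1
    simp only at this
    omega
  rw [Finset.sum_eq_add (a := ((e, 0) : ℕ × ℕ)) (b := ((0, e) : ℕ × ℕ)) hne]
  · simp only
    congr 1
    · rw [← mul_assoc]
      exact coeff_mul_of_dvd (h.mid e hem) (h'.lo 0 (by omega))
    · rw [mul_left_comm]
      exact coeff_mul_of_dvd (h.lo 0 (by omega)) (h'.mid e hem)
  · rintro ⟨i, j⟩ hij ⟨h1, h2⟩
    rw [Finset.HasAntidiagonal.mem_antidiagonal] at hij
    simp only at hij ⊢
    have hi : i < e := by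
      by_contra hc
      apply h1
      have : i = e := by omega
      rw [this]
      congr 1
      omega
    have hj : j < e := by
      by_contra hc
      apply h2
      have : j = e := by omega
      rw [this]
      congr 1
      omega
    apply coeff_eq_zero_of_dvd
    rw [pow_succ', pow_add]
    exact mul_dvd_mul_left _ (mul_dvd_mul (h.lo i hi) (h'.lo j hj))
  · intro h1
    exact absurd (Finset.HasAntidiagonal.mem_antidiagonal.2 (by simp)) h1
  · intro h1
    exact absurd (Finset.HasAntidiagonal.mem_antidiagonal.2 (by simp)) h1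

/-- the general term of `be` for `0 < i`, `0 < j`, not both equal to `e` -/
theorem be_aux {e m b b' : ℕ} (hm : m ≤ 2 * e) {V V' : PowerSeries ℤ[X]}
    (h : Prof e m b V) (h' : Prof e m b' V') {i j : ℕ} (hij : i + j = m) (hi : i ≠ 0)
    (hj : j ≠ 0) (hne : ¬ (i = e ∧ j = e)) :
    (X ^ 2 * (PowerSeries.coeff i V * PowerSeries.coeff j V') : ℤ[X]).coeff (b + b') = 0 := by
  apply coeff_eq_zero_of_dvd
  rw [pow_succ', pow_add]
  by_cases hie : i < e
  · have e1 : X ^ 2 * (PowerSeries.coeff i V * PowerSeries.coeff j V') =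
        X * (PowerSeries.coeff i V * (X * PowerSeries.coeff j V')) := by ring
    rw [e1]
    exact mul_dvd_mul_left _ (mul_dvd_mul (h.lo i hie) (h'.mid j (by omega)))
  · have hje : j < e := by omega
    have e1 : X ^ 2 * (PowerSeries.coeff i V * PowerSeries.coeff j V') =
        X * ((X * PowerSeries.coeff i V) * PowerSeries.coeff j V') := by ring
    rw [e1]
    exact mul_dvd_mul_left _ (mul_dvd_mul (h.mid i (by omega)) (h'.lo j hje))

theorem be_mul {e m b b' : ℕ} (hem : e < m) (hm : m ≤ 2 * e) {V V' : PowerSeries ℤ[X]}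
    (h : Prof e m b V) (h' : Prof e m b' V') (he : 1 ≤ e) :
    be m (b + b') (V * V') = be m b V * eps b' V' + eps b V * be m b' V' +
      (if m = 2 * e then al e b V * al e b' V' else 0) := by
  unfold be al eps
  rw [PowerSeries.coeff_mul, Finset.mul_sum, finsetSum_coeff]
  have hne : ((m, 0) : ℕ × ℕ) ≠ (0, m) := by
    intro h1
    have := congrArg Prod.fst h1
    simp only at this
    omega
  by_cases hme : m = 2 * e
  · rw [if_pos hme]
    have hmem1 : ((m, 0) : ℕ × ℕ) ∈ Finset.HasAntidiagonal.antidiagonal m := Finset.HasAntidiagonal.mem_antidiagonal.2 (by simp)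
    have hmem2 : ((0, m) : ℕ × ℕ) ∈ (Finset.HasAntidiagonal.antidiagonal m).erase (m, 0) :=
      Finset.mem_erase.2 ⟨hne.symm, Finset.HasAntidiagonal.mem_antidiagonal.2 (by simp)⟩
    rw [← Finset.add_sum_erase _ _ hmem1, ← Finset.add_sum_erase _ _ hmem2]
    have hrest : ∑ x ∈ ((Finset.HasAntidiagonal.antidiagonal m).erase (m, 0)).erase (0, m),
        (X ^ 2 * (PowerSeries.coeff x.1 V * PowerSeries.coeff x.2 V') : ℤ[X]).coeff (b + b') =
        (X * PowerSeries.coeff e V : ℤ[X]).coeff b *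
          (X * PowerSeries.coeff e V' : ℤ[X]).coeff b' := by
      rw [Finset.sum_eq_single (e, e)]
      · simp only
        have e1 : X ^ 2 * (PowerSeries.coeff e V * PowerSeries.coeff e V') =
            (X * PowerSeries.coeff e V) * (X * PowerSeries.coeff e V') := by ring
        rw [e1]
        exact coeff_mul_of_dvd (h.mid e hem) (h'.mid e hem)
      · rintro ⟨i, j⟩ hij hne2
        rw [Finset.mem_erase, Finset.mem_erase, Finset.HasAntidiagonal.mem_antidiagonal] at hij
        obtain ⟨h1, h2, h3⟩ := hij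
        simp only at h3 ⊢
        apply be_aux hm h h' h3
        · intro h4
          apply h1
          rw [h4] at h3 ⊢
          congr 1
          omega
        · intro h4
          apply h2
          have h5 : i = m := by omega
          rw [h4, h5]
        · rintro ⟨h4, h5⟩
          apply hne2
          rw [h4, h5]
      · intro h1
        exfalso
        apply h1
        rw [Finset.mem_erase, Finset.mem_erase, Finset.HasAntidiagonal.mem_antidiagonal]
        refine ⟨?_, ?_, by simp only; omega⟩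
        · intro h2
          have := congrArg Prod.fst h2
          simp only at this
          omega
        · intro h2
          have := congrArg Prod.snd h2
          simp only at this
          omega
    rw [hrest]
    simp only
    have t1 : (X ^ 2 * (PowerSeries.coeff m V * PowerSeries.coeff 0 V') : ℤ[X]).coeff (b + b') =
        (X ^ 2 * PowerSeries.coeff m V : ℤ[X]).coeff b * (PowerSeries.coeff 0 V').coeff b' := by
      rw [← mul_assoc]
      exact coeff_mul_of_dvd h.top (h'.lo 0 (by omega))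
    have t2 : (X ^ 2 * (PowerSeries.coeff 0 V * PowerSeries.coeff m V') : ℤ[X]).coeff (b + b') =
        (PowerSeries.coeff 0 V).coeff b * (X ^ 2 * PowerSeries.coeff m V' : ℤ[X]).coeff b' := by
      rw [mul_left_comm]
      exact coeff_mul_of_dvd (h.lo 0 (by omega)) h'.top
    rw [t1, t2]
    ring
  · rw [if_neg hme, add_zero]
    rw [Finset.sum_eq_add (a := ((m, 0) : ℕ × ℕ)) (b := ((0, m) : ℕ × ℕ)) hne]
    · simp only
      congr 1
      · rw [← mul_assoc]
        exact coeff_mul_of_dvd h.top (h'.lo 0 (by omega))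
      · rw [mul_left_comm]
        exact coeff_mul_of_dvd (h.lo 0 (by omega)) h'.top
    · rintro ⟨i, j⟩ hij ⟨h1, h2⟩
      rw [Finset.HasAntidiagonal.mem_antidiagonal] at hij
      simp only at hij ⊢
      apply be_aux hm h h' hij
      · intro h4
        apply h2
        rw [h4] at hij ⊢
        congr 1
        omega
      · intro h4
        apply h1
        have h5 : i = m := by omega
        rw [h4, h5]
      · rintro ⟨h4, h5⟩
        omega
    · intro h1
      exact absurd (Finset.HasAntidiagonal.mem_antidiagonal.2 (by simp)) h1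
    · intro h1
      exact absurd (Finset.HasAntidiagonal.mem_antidiagonal.2 (by simp)) h1

theorem prof_one {e m : ℕ} : Prof e m 0 (1 : PowerSeries ℤ[X]) :=
  ⟨fun n _ => by simp, fun n _ => by simp, by simp⟩

/-- the product over the components: profile, `eps`, and the two Newton identities -/
theorem prod_all {ι : Type*} (s : Finset ι) {e m : ℕ} (he : 1 ≤ e) (hem : e < m)
    (hm : m ≤ 2 * e) (b : ι → ℕ) (V : ι → PowerSeries ℤ[X])
    (h : ∀ c ∈ s, Prof e m (b c) (V c)) (h1 : ∀ c ∈ s, eps (b c) (V c) ^ 2 = 1) :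
    Prof e m (∑ c ∈ s, b c) (∏ c ∈ s, V c) ∧
    eps (∑ c ∈ s, b c) (∏ c ∈ s, V c) ^ 2 = 1 ∧
    eps (∑ c ∈ s, b c) (∏ c ∈ s, V c) * al e (∑ c ∈ s, b c) (∏ c ∈ s, V c) =
      ∑ c ∈ s, eps (b c) (V c) * al e (b c) (V c) ∧
    (if m = 2 * e then
      (eps (∑ c ∈ s, b c) (∏ c ∈ s, V c) * al e (∑ c ∈ s, b c) (∏ c ∈ s, V c)) ^ 2 else 0) -
      2 * (eps (∑ c ∈ s, b c) (∏ c ∈ s, V c) * be m (∑ c ∈ s, b c) (∏ c ∈ s, V c)) =
      ∑ c ∈ s, ((if m = 2 * e then (al e (b c) (V c)) ^ 2 else 0) -
        2 * (eps (b c) (V c) * be m (b c) (V c))) := by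
  classical
  induction s using Finset.induction_on with
  | empty =>
    simp only [Finset.sum_empty, Finset.prod_empty]
    have e1 : eps 0 (1 : PowerSeries ℤ[X]) = 1 := by simp [eps]
    have e2 : al e 0 (1 : PowerSeries ℤ[X]) = 0 := by
      simp [al, PowerSeries.coeff_one, show e ≠ 0 by omega]
    have e3 : be m 0 (1 : PowerSeries ℤ[X]) = 0 := by
      simp [be, PowerSeries.coeff_one, show m ≠ 0 by omega]
    refine ⟨prof_one, by rw [e1]; norm_num, by rw [e2]; simp, by rw [e2, e3]; simp⟩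
  | insert a s ha ih =>
    have ih' := ih (fun c hc => h c (Finset.mem_insert_of_mem hc))
      (fun c hc => h1 c (Finset.mem_insert_of_mem hc))
    obtain ⟨i1, i2, i3, i4⟩ := ih'
    have ha1 := h a (Finset.mem_insert_self a s)
    have ha2 := h1 a (Finset.mem_insert_self a s)
    rw [Finset.sum_insert ha, Finset.prod_insert ha, Finset.sum_insert ha, Finset.sum_insert ha,
      eps_mul ha1 i1 he, al_mul hem ha1 i1 he, be_mul hem hm ha1 i1 he]
    refine ⟨ha1.mul hem.le hm i1 he, by rw [mul_pow, ha2, i2, one_mul], ?_, ?_⟩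
    · rw [← i3]
      linear_combination (eps (b a) (V a) * al e (b a) (V a)) * i2 +
        (eps (∑ c ∈ s, b c) (∏ c ∈ s, V c) * al e (∑ c ∈ s, b c) (∏ c ∈ s, V c)) * ha2
    · rw [← i4]
      by_cases hme : m = 2 * e
      · simp only [if_pos hme]
        generalize eps (∑ c ∈ s, b c) (∏ c ∈ s, V c) = E at *
        generalize al e (∑ c ∈ s, b c) (∏ c ∈ s, V c) = A at *
        generalize be m (∑ c ∈ s, b c) (∏ c ∈ s, V c) = B at *
        generalize eps (b a) (V a) = ε at *
        generalize al e (b a) (V a) = α at *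
        generalize be m (b a) (V a) = β at *
        have hE : E ^ 2 = 1 := i2
        have hε : ε ^ 2 = 1 := ha2
        have e1 : ε * E * (α * E + ε * A) = ε * α + E * A := by
          linear_combination (ε * α) * hE + (E * A) * hε
        have e2 : ε * E * (β * E + ε * B + α * A) = ε * β + E * B + (ε * α) * (E * A) := by
          linear_combination (ε * β) * hE + (E * B) * hε
        rw [e1, e2]
        linear_combination (α ^ 2) * hε
      · simp only [if_neg hme, add_zero]
        generalize eps (∑ c ∈ s, b c) (∏ c ∈ s, V c) = E at *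
        generalize be m (∑ c ∈ s, b c) (∏ c ∈ s, V c) = B at *
        generalize eps (b a) (V a) = ε at *
        generalize be m (b a) (V a) = β at *
        have hE : E ^ 2 = 1 := i2
        have hε : ε ^ 2 = 1 := ha2
        linear_combination (-2 * ε * β) * hE + (-2 * E * B) * hε

/-- first order coefficient: `∑ ε_c α_c = 0` -/
theorem sum_first {ι : Type*} (s : Finset ι) {e : ℕ} (he : 1 ≤ e) (b : ι → ℕ)
    (V : ι → PowerSeries ℤ[X]) (h : ∀ c ∈ s, Prof e (2 * e) (b c) (V c))
    (h1 : ∀ c ∈ s, eps (b c) (V c) ^ 2 = 1)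
    (hP : (X : ℤ[X]) ^ (∑ c ∈ s, b c) ∣ PowerSeries.coeff e (∏ c ∈ s, V c)) :
    ∑ c ∈ s, eps (b c) (V c) * al e (b c) (V c) = 0 := by
  obtain ⟨_, _, i3, _⟩ := prod_all s he (by omega) le_rfl b V h h1
  rw [← i3]
  have : al e (∑ c ∈ s, b c) (∏ c ∈ s, V c) = 0 := by
    unfold al
    apply coeff_eq_zero_of_dvd
    rw [pow_succ']
    exact mul_dvd_mul_left _ hP
  rw [this, mul_zero]

/-- second power sum: `∑ (α_c² - 2 ε_c β_c) = 0` (coefficients at `q^(2e)`) -/
theorem sum_second {ι : Type*} (s : Finset ι) {e : ℕ} (he : 1 ≤ e) (b : ι → ℕ)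
    (V : ι → PowerSeries ℤ[X]) (h : ∀ c ∈ s, Prof e (2 * e) (b c) (V c))
    (h1 : ∀ c ∈ s, eps (b c) (V c) ^ 2 = 1)
    (hP : (X : ℤ[X]) ^ (∑ c ∈ s, b c) ∣ PowerSeries.coeff e (∏ c ∈ s, V c))
    (hP2 : (X : ℤ[X]) ^ (∑ c ∈ s, b c) ∣ PowerSeries.coeff (2 * e) (∏ c ∈ s, V c)) :
    ∑ c ∈ s, ((al e (b c) (V c)) ^ 2 - 2 * (eps (b c) (V c) * be (2 * e) (b c) (V c))) = 0 := by
  obtain ⟨_, _, i3, i4⟩ := prod_all s he (by omega) le_rfl b V h h1
  simp only [if_true] at i4
  rw [← i4]
  have e1 : al e (∑ c ∈ s, b c) (∏ c ∈ s, V c) = 0 := by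
    unfold al
    apply coeff_eq_zero_of_dvd
    rw [pow_succ']
    exact mul_dvd_mul_left _ hP
  have e2 : be (2 * e) (∑ c ∈ s, b c) (∏ c ∈ s, V c) = 0 := by
    unfold be
    apply coeff_eq_zero_of_dvd
    rw [pow_succ, mul_comm]
    exact mul_dvd_mul (dvd_pow_self X (by norm_num)) hP2
  rw [e1, e2]
  ring

/-- below `2 e`: `∑ ε_c β_c = 0` for the coefficients at `q^m d^(b-2)`, `e < m < 2 e` -/
theorem sum_odd {ι : Type*} (s : Finset ι) {e m : ℕ} (he : 1 ≤ e) (hem : e < m) (hm : m < 2 * e)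
    (b : ι → ℕ) (V : ι → PowerSeries ℤ[X]) (h : ∀ c ∈ s, Prof e m (b c) (V c))
    (h1 : ∀ c ∈ s, eps (b c) (V c) ^ 2 = 1)
    (hP2 : (X : ℤ[X]) ^ (∑ c ∈ s, b c) ∣ PowerSeries.coeff m (∏ c ∈ s, V c)) :
    ∑ c ∈ s, eps (b c) (V c) * be m (b c) (V c) = 0 := by
  obtain ⟨_, _, _, i4⟩ := prod_all s he hem hm.le b V h h1
  have hne : m ≠ 2 * e := hm.ne
  simp only [if_neg hne, zero_sub] at i4
  have e2 : be m (∑ c ∈ s, b c) (∏ c ∈ s, V c) = 0 := by
    unfold be
    apply coeff_eq_zero_of_dvd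
    rw [pow_succ, mul_comm]
    exact mul_dvd_mul (dvd_pow_self X (by norm_num)) hP2
  rw [e2, mul_zero, mul_zero, neg_zero, Finset.sum_neg_distrib, ← Finset.mul_sum] at i4
  linarith

/-- individuality: if no component has a positive second order term then all first order terms
vanish -/
theorem individual {ι : Type*} (s : Finset ι) {e : ℕ} (he : 1 ≤ e) (b : ι → ℕ)
    (V : ι → PowerSeries ℤ[X]) (h : ∀ c ∈ s, Prof e (2 * e) (b c) (V c))
    (h1 : ∀ c ∈ s, eps (b c) (V c) ^ 2 = 1)
    (hP : (X : ℤ[X]) ^ (∑ c ∈ s, b c) ∣ PowerSeries.coeff e (∏ c ∈ s, V c))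
    (hP2 : (X : ℤ[X]) ^ (∑ c ∈ s, b c) ∣ PowerSeries.coeff (2 * e) (∏ c ∈ s, V c))
    (hneg : ∀ c ∈ s, eps (b c) (V c) * be (2 * e) (b c) (V c) ≤ 0) :
    ∀ c ∈ s, (X : ℤ[X]) ^ (b c) ∣ PowerSeries.coeff e (V c) := by
  intro c hc
  have h2 := sum_second s he b V h h1 hP hP2
  have h3 : ∀ c ∈ s, 0 ≤ (al e (b c) (V c)) ^ 2 -
      2 * (eps (b c) (V c) * be (2 * e) (b c) (V c)) := by
    intro c hc
    have := hneg c hc
    nlinarith [sq_nonneg (al e (b c) (V c))]
  have h4 := (Finset.sum_eq_zero_iff_of_nonneg h3).1 h2 c hc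
  have h5 : al e (b c) (V c) = 0 := by
    have := hneg c hc
    have h6 : (al e (b c) (V c)) ^ 2 ≤ 0 := by linarith
    exact pow_eq_zero_iff (two_ne_zero) |>.1 (le_antisymm h6 (sq_nonneg _))
  have h6 := (h c hc).mid e (by omega)
  rw [X_pow_dvd_iff] at h6 ⊢
  intro d hd
  by_cases hdb : d + 1 < b c
  · have := h6 (d + 1) hdb
    rwa [coeff_X_mul] at this
  · have hd1 : d + 1 = b c := by omega
    unfold al at h5
    rw [← hd1, coeff_X_mul] at h5
    exact h5

end Pool.Agent.W_448tc
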